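import Mathlib
import Pool.Graph.R_pool_sql_team_seeded_843ab51a.V1168.EV.Mot
import Pool.Agent.H855.CM.Slim

/-!
# Parshin's conjecture on rational K-theory for the products of arbitrary varieties with all abelian
varieties without exotic classes, over all finite fields: finitely many exceptional slope vectors

Let `K i` (`i` in any set `I`) be CM fields, for instance **all** CM fields, and let `V i` be the space of
the odd rational functions on the complex embeddings of `K i`, a representation of the automorphisms of
`ℂ`. We fix an isomorphism `ν` of the algebraic closure of `ℚ_p` with `ℂ`; it defines a `p`-adic
valuation `v` of `ℂ` with `v p = 1`. The slope vector of a Weil number `π` for `p ^ a` in `K i` is the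
function `x φ = 2 v (φ π) - a` on the complex embeddings `φ` of `K i` (`slopeVector`).

Let `π j` (`j` in a finite set `J`) be Weil numbers for the same `q = p ^ a`, any `a > 0`, in fields
`L j`, each of which is one of the `K i`. We suppose that the family is *independent*
(`AreIndependent`): the slope vectors `x j` and their translates satisfy no nontrivial linear relation
with rational coefficients (equivalently, all Tate classes on all products of powers of the abelian
varieties of the `π j` are polynomials in divisor classes). Sufficient conditions, for instance a place
of coprime degree of each of the maximal real subfields, are proved in `Pool/Agent/H855/CM`.

Let `f j` be monic polynomials whose complex roots are conjugates of `π j` (`IsPolyOf`), and `A` an abelian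
variety over the field with `Q = q ^ s` elements, isogenous to a product of powers of abelian varieties
which come from the field with `q` elements and have the characteristic polynomials of Frobenius `f j`
(`IsAbelian`).

A number `ρ` comes from the finite set `Ω` of complex numbers (`From p Ω`) if it is not zero and a power
of it is the product of a power of a conjugate of an element of `Ω`, or of `1`, and of a power of `p`.
(All Frobenius eigenvalues of a variety over a finite field, and of its base changes to all finite
extensions, come from such a set `Ω`: take one root of each irreducible factor of the characteristic
polynomials.)

Let `Z` be **any** smooth
projective variety over the field with `Q` elements such that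

* the eigenvalues of Frobenius on the cohomology of `Z` come from `Ω`;
* homologically trivial self-correspondences of degree zero of `A × Z` are nilpotent, for instance
  the motive of `Z` is finite-dimensional in the sense of Kimura and O'Sullivan. This is known for
  all varieties dominated by products of curves, and for their products with `A`.

**The theorem: there is a set `E` of at most `|Ω|` pairs `(i, v)`, where `v` is an odd function, not zero,
on the complex embeddings of `K i`, such that for all `a`, `s`, all independent families `π j`, all `f j`
and `A`, and all `Z` as above, for which no vector of `E` is a combination of the slope vectors `x j`,
the statement below is true.** The set `E` depends only on `ν`, `Ω` and the fields `K i`, and it has not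
more elements than any set which contains a conjugate of each element of `Ω` (`IsBounded`).

A vector `v` on the embeddings of a field `K` is a combination of the slope vectors (`IsImage`)
if it is the sum of the images of the `x j` under equivariant maps, that is,
`v φ = ∑ t φ (j, ψ) * x j ψ` with rational numbers `t φ (j, ψ)` which are invariant under the
automorphisms of `ℂ` and odd in `ψ` (so they are zero if there are no nonzero equivariant maps between
the odd functions on the embeddings of `K` and `L j`: then the fields are unrelated). So

* if `K i` is unrelated to all the `L j` the condition on the elements `(i, v)` of `E` is satisfied:
  apart from at most `|Ω|` fields, and the fields related to them, there are **no** exceptional abelian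
  varieties, over all finite fields;
* if the `L j` are pairwise unrelated and `K i` is one of them, `L j₀`, the condition is that the slope
  vector `x j₀` is not mapped to `v` by an endomorphism of the representation `V i`; if `V i` is
  absolutely irreducible, that `x j₀` is not on the line of `v`.

(Exceptions are necessary: an abelian variety has common divisor classes with itself.)

Then for every `m` **the group `K_m(A × Z) ⊗ ℚ` is zero if and only if `K_m(Z) ⊗ ℚ` is zero.** More
precisely there are finitely many products `D j` of `deg j` divisors on `A` such that
`K_m(A × Z)^(i) = ⨁ D j × K_m(Z)^(i - deg j)` for all `m` and `i`, where `K_m(X)^(i)` is the part of
`K_m(X) ⊗ ℚ` on which the Adams operation `ψ^k` is multiplication by `k ^ i`. In particular the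
conjecture of Parshin holds for `A` (`Z = Spec k`), for `A × C` for all curves `C` with
eigenvalues from `Ω`, and for `A × Z` if it holds for `Z`. The Frobenius endomorphism of `A × Z` acts on
`K_m(A × Z)^(i)` as multiplication by `Q ^ i` (`ActsAsPower`).

The result `ExceptionalSlopeLines` of an earlier run supposes that the `K i` have pair flips (`PairFlips`;
then the `V i` are absolutely irreducible and pairwise unrelated), and it is about finitely many fields
and one Weil number in each of them. Here the CM fields are arbitrary, there can be several Weil numbers
in one field, and all finite families in infinitely many fields are considered at the same time. The
result `EveryVarietyTimes` of an earlier run is about one finite field and one family of Weil numbers in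
fields with pair flips: its exceptional set depends on the Weil numbers.

The framework (`TheoryData`, `IsChow`, `IsWeil`): the Chow groups `C` with
their pull-backs, push-forwards and products, and a Weil cohomology theory `H` with coefficients in
an algebraically closed field, on a class `𝒱` of smooth proper varieties over `k`. The `K`-groups are theories on
which correspondences act (`MotivicData`, `IsRationalKGroup`).

The proof. For `β` in `Ω` let `g` be the function `σ ↦ v (σ β) - v (conj (σ β))` of the automorphisms `σ` of
`ℂ`, and `M` the rational representation generated by it. Suppose that for some family there is a
relation between the roots of the `f j` and a number that comes from `β`. Computing valuations, `g` is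
a value `σ ↦ ∑ n (j, ψ) x j (σ ψ)` of the relation map of the family, `n` odd. Compose the orthogonal
projection to the representation generated by `n` with the relation map: this is an equivariant map from
the odd functions of the family to `M` which is not zero, hence not zero on the odd functions of one
of the fields `K i`, and there it is given by a vector `v`: the exceptional vector of `β`
(`exists_vector`). If `g` is a value of the relation map of **another** family then so are all elements
of `M`, in particular the functions `σ ↦ v (σ φ)`, and choosing the values orthogonal to the relations we
see that `v` is a combination of its slope vectors (`isCombination_of`). So outside of the exceptional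
vectors there are no relations (`exists_vectorsX`).

The generalized eigenvectors of Frobenius in the cohomology of `A × Z` for the eigenvalues `Q ^ i` are
therefore sums of products of classes of products of divisors on `A` and of classes on `Z`. Let `p`
be the projector given by dual systems of products of divisors on `A`, and `P` a polynomial killing
all the other eigenvalues and with `P (Q ^ i) = 1`. The correspondence `(1 - p) P (F)` is
homologically trivial, hence nilpotent; as it acts on the part of weight `i` as the idempotent
`1 - p`, this idempotent is zero. (The idea to play the eigenvalues of Frobenius off against
nilpotence is due to Soule, Geisser and Kahn.)
-/

set_option autoImplicit false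

namespace Pool.Agent.Results.MP_27fd67_ag.ExceptionalVectors

open NumberField Pool.Agent.V1168.EV Pool.Agent.H855.CM

/-- **The group `K_m(A × Z) ⊗ ℚ` is zero if and only if `K_m(Z) ⊗ ℚ` is zero, for all `Z` with Frobenius
eigenvalues from the finite set `Ω` and all abelian varieties `A` in finite independent families of
Weil numbers in the CM fields `K i`, over all finite fields, outside of at most `|Ω|` exceptional
slope vectors.** -/
theorem result {p : ℕ} [Fact p.Prime] (ν : PadicAlgCl p ≃+* ℂ) {I : Type}
    (K : I → Type) [∀ i, Field (K i)] [∀ i, NumberField (K i)] [∀ i, IsCMField (K i)]
    (Ω : Finset ℂ) :
    ∃ E : Finset (Σ i, ((K i →+* ℂ) → ℝ)), IsBounded Ω E ∧
      ForAllOutsideVectors ν K (fun _ q f => KGroupsLines p Ω q f) E := by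
  obtain ⟨E, hE, h⟩ := exists_vectorsS ν K Ω
  exact ⟨E, hE, h _ fun J q f hq hR => kGroupsLines hq hR⟩

end Pool.Agent.Results.MP_27fd67_ag.ExceptionalVectors
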