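import Mathlib
import Pool.Agent.H845.Orb.Short
import Pool.Graph.R_pool_sql_team_seeded_2aa45f1a.Q64.P.Thms

/-!
# Parshin's conjecture for `A × Z`, for arbitrary smooth projective varieties `Z` and all abelian
# varieties `A` whose Weil numbers satisfy an exact criterion, in terms of factorizations over the
# CM fields

**The family.** Let `p` be a prime number, `q = p ^ a`, let `K i` (`i` in a finite set) be **any** CM
fields (they may be dependent, have the same Galois closure, or be equal), and `π i` Weil numbers for
`q` in `K i` such that each power `(π i) ^ n`, `n ≥ 1`, generates `K i` (`IsSimpleWeil`; by Honda and
Tate this is the situation for the simple factors of any abelian variety over a finite field, after a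
finite extension of the field, except for the supersingular factors).

**The criterion** (`IsFree`). Decompose the minimal polynomials (over `ℚ`) of all the numbers `π k`
into monic irreducible factors `g` over the field `K i`, and let `ratio g = g(0) / conj g(0)`. The
number `π i` is free if no positive power of `π i / conj (π i)` is a product of powers of the numbers
`ratio g`, where `g` runs over all these factors except for `X - π i` and `X - conj (π i)`. So one has
to look for multiplicative relations between a few elements of the group `K i ^×`; no Galois closure is
needed. **All `π i` are free if and only if there are no relations between the conjugates of the
`π i`, except for the trivial ones** (the angle rank is maximal; the number `1` is free from the `π i`),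
that is, if and only if there are no exotic Tate classes on the powers of the abelian varieties of the
`π i`.

**The theorem.** Suppose that all `π i` are free. Let `f i` be monic polynomials whose complex
roots are conjugates of `π i` (`IsPolyOf`), for instance powers of the minimal polynomials, and
let `A` be an abelian variety over the field with `Q = q ^ s` elements, `s > 0`, which is
isogenous to a product of powers of abelian varieties which come from the field with `q` elements
and have the characteristic polynomials of Frobenius `f i`. Let `Z` be **any** smooth projective
variety over the field with `Q` elements such that

* the eigenvalues of Frobenius on the cohomology of `Z` are free from the `π i` (`FreeFrom`);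
* homologically trivial self-correspondences of degree zero of `A × Z` are nilpotent, for instance
  the motive of `Z` is finite-dimensional in the sense of Kimura and O'Sullivan. This is known for
  all varieties dominated by products of curves, and for their products with `A`.

There are finitely many products `D j` of `deg j` divisor classes on `A` such that for all `m` the
groups `T = K_m ⊗ ℚ` with their Adams eigenspaces `T^i = K_m^(i)` satisfy `T^i(A × Z) = ⨁ D j ×
T^(i - deg j)(Z)` for all `i`. In particular **`K_m(A × Z) ⊗ ℚ = 0` if and only if `K_m(Z) ⊗ ℚ =
0`: the conjecture of Parshin holds for `A × Z` if and only if it holds for `Z`**
(`ParshinReduces`). So it holds for all `A` as above (`Z` a point) and for `A × Z` if `Z` is a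
curve, by the theorems quoted in the question: the constants do not depend on the curve, but only
on its genus. The Frobenius endomorphism acts on `K_m(A × Z)^(i)` as multiplication by `Q ^ i`.

What is used of `A` are known theorems (`IsAbelian`): the cohomology is generated by `H^1`,
Frobenius is diagonalizable on `H^1` (Weil), with eigenvalues `z ^ s`, `z` a root of some `f i`,
and the theorem of Tate on divisors. The framework (`TheoryData`, `IsChow`, `IsWeil`) is the one
of helper492 in the library: the Chow groups `C` with their pull-backs, push-forwards and
products, and a Weil cohomology theory `H` with coefficients in an algebraically closed field `F`,
on a class `𝒱` of smooth proper varieties over `k`.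

Here a complex number `ρ ≠ 0` is free from the `π i` (`FreeFrom`) if a relation `ρ ^ N ∏ (φ (π i))
^ n(φ) = q ^ c`, `N ≥ 1`, is possible only if `n(φ) = n(conj φ)` for all `φ`.

**The criteria** (`FreeCriteriaShort`, part two of the theorem).

* The exactness of the criterion, see above. It is decided by the `p`-adic absolute values of the
  fields `K i`, that is, by the slopes.
* If the fields `K i` are pairwise independent then it is sufficient to consider the `π i` one by one:
  all the other `ratio g` are one.
* **Several Weil numbers in the same fields.** Let the fields `K i` be pairwise independent, with
  flips (`HasFlip`: for two embeddings `φ`, `ψ` which are not equal or conjugate, there is an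
  automorphism which fixes `φ` and conjugates `ψ`), and let `π i j` be several Weil numbers in each
  `K i`. They are all free if and only if for each `i` the numbers `π i j / conj (π i j)` are
  multiplicatively independent. A CM field has flips if some prime number divides its discriminant
  exactly once (and not the discriminant of the maximal real subfield). These are the products of
  non-isogenous abelian varieties with the same CM field.
* **The exact criterion for `Z`.** All numbers unrelated to the fields `K i` are free from the `π i`.
  A number `φ x` for an element `x` of a CM field `F` with `x * conj x = q ^ w` is free from the `π i`
  if and only if a positive power of `x / conj x` is a product of powers of the `ratio g`, `g` a factor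
  over `F` of the minimal polynomial of some `π i`, only with exponents which are the same for `g` and
  for the conjugate polynomial. So the fields of the eigenvalues of `Z` may be related or equal to
  the fields `K i`.

**What was known.** The framework and the geometric part (`Q64.P.parshinReduces`) are those of the
theorem `AllCMTypesTimes` of the library, for eigenvalues unrelated to the CM fields and in terms
of the absence of relations; for this question there are bounds for the number of the exceptional
slope types and isogeny classes. New here are the criterion, necessary and sufficient, for
arbitrary families in arbitrary dependent fields, and the varieties `Z` with eigenvalues in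
dependent fields.

**The proof.** Let there be a relation between the conjugates of the `π k` with an exponent which is
not symmetric at an embedding `φ` of `K i`. The product of its images under the (finitely many
permutations induced by the) automorphisms that fix `φ` is a relation with invariant exponents and
still not symmetric at `φ`. The orbits of the stabilizer of `φ` on the embeddings of `K k` are the
factors of the minimal polynomial of `π k` over `K i`, and the products of the conjugates over the
orbits are the constant terms of the factors, up to sign. So the relation is a relation in `K i`.
-/

set_option autoImplicit false

namespace Pool.Agent.Results.MP_27fd67_ag.FactorizationCriterion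

open NumberField Polynomial Pool.Agent.Y1.CT Pool.Agent.Y156.P Pool.Agent.H845.Orb
  Pool.Agent.Q64.P

/-- **The conjecture of Parshin for `A × Z` is equivalent to the conjecture of Parshin for `Z`, for all abelian
varieties `A` whose Weil numbers satisfy the criterion, which is necessary and sufficient for the absence
of relations, and all `Z` with eigenvalues free from these Weil numbers.** -/
theorem result :
    (∀ (p : ℕ) [Fact p.Prime] (a : ℕ), 0 < a → ∀ (I : Type) [Fintype I] (K : I → Type)
      [∀ i, Field (K i)] [∀ i, NumberField (K i)] [∀ i, IsCMField (K i)] (π : ∀ i, K i)
      (f : I → ℤ[X]), (∀ i, IsSimpleWeil p a (π i)) → (∀ i, IsFree π i) →
      (∀ i, IsPolyOf (π i) (f i)) → ParshinReduces (RootsIn (FreeFrom (p ^ a) π)) (p ^ a) f) ∧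
    FreeCriteriaShort :=
  ⟨fun _ _ _ ha _ _ _ _ _ _ _ _ hπ hfree hf =>
    parshinReduces (Nat.one_lt_pow ha.ne' (Fact.out : Nat.Prime _).one_lt)
      (noRel_free hπ hfree hf), freeCriteriaShort_hold⟩

end Pool.Agent.Results.MP_27fd67_ag.FactorizationCriterion
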