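import Pool.Agent.H857.MX.Master
import Pool.Graph.R_pool_sql_team_seeded_2aa45f1a.Q64.P.Thms

/-!
# MP_27fd67_ag: Parshin's conjecture for `A × Z`, for arbitrary smooth projective varieties `Z`
and all abelian varieties `A` but a set of isogeny classes of the exact order of magnitude of its
size

Let `g i` (`i` in a finite set `I`) be positive integers. For a prime power `q = p ^ a` let
`families g p a` be the finite set of the families `f i` of Weil polynomials of degrees `2 g i`
relative to `q` with integral Newton polygons. It contains the families of the characteristic
polynomials of the Frobenius endomorphisms of abelian varieties `A i` of dimensions `g i` over the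
field with `q` elements (Weil), which determine the `A i` up to isogeny (Tate). It has about `q ^
(∑ g i (g i + 1) / 4)` elements.

Let the `ρ k` be `r` Weil numbers of weights less than `c` with slopes in `(1 / D) ℤ`, for
instance the eigenvalues of Frobenius on the cohomology of a smooth projective variety over the
field with `q` elements. The family `f` is exceptional if there is a multiplicative relation
between roots of the `f i`, the numbers `ρ k` and `q`, up to roots of unity, which does not come
from the pairs of conjugate roots `z`, `q / z`.

1. The proportion of the exceptional families among all the families is of the exact order of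
magnitude `∑ q ^ (- δ (g i) / 2)`, where `δ (g) = g` for `g ≠ 2` and `δ (2) = 1`: it is at most
`C` times, and at least `1 / C` times this sum. The constant `C` depends only on the `g i`, on
`r`, `c` and `D` - not on `p`, `q` and the `ρ k`.

2. Let `f` be a family which is not exceptional, and let `A` be an abelian variety over the field
with `Q = q ^ s` elements, `s > 0`, which is isogenous to a product of powers of abelian varieties
`A i` with characteristic polynomials `f i`. Let `Z` be **any** smooth projective variety over the
field with `Q` elements such that

* the eigenvalues of Frobenius on the cohomology of `Z` lie, up to powers, in the group generated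
  by the `ρ k` and `q` (`Generated`);
* homologically trivial self-correspondences of degree zero of `A × Z` are nilpotent, for instance
  the motive of `Z` is finite-dimensional in the sense of Kimura and O'Sullivan. This is known for
  all varieties dominated by products of curves, and for their products with `A`.

There are finitely many products `D j` of `deg j` divisor classes on `A` such that for all `m` the
groups `T = K_m ⊗ ℚ` with their Adams eigenspaces `T^i = K_m^(i)` satisfy `T^i(A × Z) = ⨁ D j ×
T^(i - deg j)(Z)` for all `i`. In particular **`K_m(A × Z) ⊗ ℚ = 0` if and only if `K_m(Z) ⊗ ℚ =
0`: the conjecture of Parshin holds for `A × Z` if and only if it holds for `Z`**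
(`ParshinReduces`). So it holds for all `A` as above (`Z` a point) and for `A × Z` if `Z` is a
curve, by the theorems quoted in the question: the constants do not depend on the curve, but only
on its genus. The Frobenius endomorphism acts on `K_m(A × Z)^(i)` as multiplication by `Q ^ i`.

What is used of `A` are known theorems (`IsAbelian`): the cohomology is generated by `H^1`,
Frobenius is diagonalizable on `H^1` (Weil), with eigenvalues `z ^ s`, `z` a root of some `f i`,
and the theorem of Tate on divisors. The framework (`TheoryData`, `IsChow`, `IsWeil`) is the one
of helper492 in the library: the Chow groups `C` with their pull-backs, push-forwards and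
products, and a Weil cohomology theory `H` with coefficients in an algebraically closed field `F`,
on a class `𝒱` of smooth proper varieties over `k`.

The framework and the geometric part (`Q64.P.parshinReduces`) are those of the theorem
`AllCMTypesTimes` of the library, which bounds the number of the exceptional slope types of CM
fields and asks that the eigenvalues of the other factor are unrelated to these fields. In other
theorems of the library the exceptional set of isogeny classes has a proportion `O (q ^ (-1 / 6)
log q)`, without a lower bound, for other factors with eigenvalues in a group of small rank over a
fixed number field. New here are the arbitrary eigenvalues, the uniformity in `p` and the exact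
order of magnitude of the exceptional set. The count is that of MP_557161_ag: the slopes bound the
exponents of the relations, up to proportionality, and each relation is a nontrivial algebraic
equation for the coefficients on almost all pencils of Weil polynomials, by the expansions of the
roots at infinity.
-/

set_option autoImplicit false

namespace Pool.Agent.Results.MP_27fd67_ag.SharpExceptionalSet

open Pool.Agent.H857.SX Pool.Agent.Q64.P

/-- **The exceptional set.** -/
theorem result {I : Type} [Fintype I] (g : I → ℕ) (hg : ∀ i, 0 < g i) (r D c : ℕ) (hD : 0 < D) :
    ∃ C : ℝ, 0 < C ∧ ∀ (p : ℕ) [Fact p.Prime] (a : ℕ), 0 < a →
      ((families g p a).Finite ∧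
        ∏ i, Real.sqrt ((p : ℝ) ^ a) ^ (g i * (g i + 1) / 2) ≤ C * (families g p a).ncard ∧
        (families g p a).ncard ≤ C * ∏ i, Real.sqrt ((p : ℝ) ^ a) ^ (g i * (g i + 1) / 2)) ∧
      ∀ (w : Fin r → ℕ) (ρ : Fin r → ℂ), (∀ k, w k < c ∧ IsWeilNumber p a D (w k) (ρ k)) →
        (({f ∈ families g p a | ¬ Independent f (p ^ a) ρ}.ncard : ℝ) ≤
            C * (rate g ((p : ℝ) ^ a) * (families g p a).ncard) ∧
          rate g ((p : ℝ) ^ a) * (families g p a).ncard ≤
            C * {f ∈ families g p a | ¬ Independent f (p ^ a) ρ}.ncard) ∧
        ∀ f ∈ families g p a, Independent f (p ^ a) ρ →
          ParshinReduces (RootsIn (Generated (p ^ a) ρ)) (p ^ a) f :=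
  Pool.Agent.H857.MX.master g hg r D c hD (fun q f R => ParshinReduces (RootsIn R) q f)
    fun _ _ _ hq _ h0 hR => parshinReduces hq hR

end Pool.Agent.Results.MP_27fd67_ag.SharpExceptionalSet
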